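import Pool.Agent.helper17.HH.SpecB

/-!
# Row hh:BGC (MP_07c750_an): interpolation between the grid scales
-/

open scoped Pointwise
open MeasureTheory Set

set_option autoImplicit false

namespace Pool.Agent.HH

noncomputable section

theorem BGC_proof (h : RCV_stmt) : BGC_stmt := by
  classical
  intro C hC
  obtain ⟨m0, hm0⟩ := exists_nat_ge (Real.log ((C + 2) * C ^ 2))
  refine ⟨m0 + 1, fun m L A A' hm hL1 hL2 hCA hA' => ?_⟩
  have hC0 : 0 < C := by linarith
  have hlogC : 0 ≤ Real.log C := Real.log_nonneg hC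
  have hm1 : (1 : ℝ) ≤ m := by exact_mod_cast (by omega : 1 ≤ m)
  have hmpos : (0 : ℝ) < m := by linarith
  have hm0' : Real.log ((C + 2) * C ^ 2) ≤ m := by
    have : (m0 : ℝ) ≤ m := by exact_mod_cast (by omega : m0 ≤ m)
    linarith
  have hL : (0 : ℝ) < L := lt_of_lt_of_le (Real.exp_pos _) hL1
  obtain ⟨hA0, hCA⟩ := hCA
  constructor
  · intro x hx
    obtain ⟨a, ha, rfl⟩ := Finset.mem_image.1 hx
    obtain ⟨h1, h2⟩ := hA0 a (hA' ha)
    have h1' : (0 : ℝ) ≤ a := by exact_mod_cast h1
    have h2' : (a : ℝ) ≤ L := by exact_mod_cast h2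
    exact ⟨by positivity, by rw [div_le_one hL]; exact h2'⟩
  · intro d s x0 hd hds hs1
    have hdpos : 0 < d := lt_of_lt_of_le (by positivity) hd
    have hspos : 0 < s := lt_of_lt_of_le hdpos hds
    have hlogs : Real.log s ≤ 0 := Real.log_nonpos hspos.le hs1
    have hlogds : Real.log d ≤ Real.log s := Real.log_le_log hdpos hds
    have hlogL : Real.log L ≤ 4000 * m + Real.log C := by
      have := Real.log_le_log hL hL2
      rw [Real.log_mul hC0.ne' (Real.exp_pos _).ne', Real.log_exp] at this
      linarith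
    have hlogL1 : 4000 * (m : ℝ) ≤ Real.log L := by
      rw [Real.le_log_iff_exp_le hL]
      exact hL1
    have hlogd : -Real.log d ≤ Real.log L := by
      have h1 := Real.log_le_log (by positivity) hd
      rw [Real.log_div one_ne_zero hL.ne', Real.log_one] at h1
      linarith
    -- the index `i`
    obtain ⟨i, hi3999, hi1, hi2⟩ : ∃ i : ℕ, i ≤ 3999 ∧ (i : ℝ) * m ≤ -Real.log s ∧ -Real.log s ≤ (i + 1) * m + Real.log C := by
      have hq : 0 ≤ -Real.log s / m := by
        apply div_nonneg _ hmpos.le
        linarith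
      have hf1 := Nat.floor_le hq
      have hf2 := Nat.lt_floor_add_one (-Real.log s / m)
      rw [le_div_iff₀ hmpos] at hf1
      rw [div_lt_iff₀ hmpos] at hf2
      rcases le_or_gt ⌊-Real.log s / m⌋₊ 3999 with h39 | h39
      · exact ⟨⌊-Real.log s / m⌋₊, h39, hf1, by linarith⟩
      · refine ⟨3999, le_rfl, ?_, ?_⟩
        · have h1 : ((3999 : ℕ) : ℝ) ≤ (⌊-Real.log s / m⌋₊ : ℝ) := by exact_mod_cast h39.le
          exact (mul_le_mul_of_nonneg_right h1 hmpos.le).trans hf1
        · push_cast
          linarith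
    have hi1' : s ≤ Real.exp (-(i * m)) := by
      rw [← Real.log_le_iff_le_exp hspos]
      linarith
    -- the index `j`
    obtain ⟨j, hij, hj4, hj1, hj2⟩ : ∃ j : ℕ, i < j ∧ j ≤ 4000 ∧ (j : ℝ) * m ≤ -Real.log d + m ∧
        ((Real.exp (-(j * m)) ≤ d) ∨ (d ≤ Real.exp (-(j * m)) ∧ Real.exp (-(j * m)) ≤ C * d)) := by
      have hq : 0 ≤ -Real.log d / m := by
        apply div_nonneg _ hmpos.le
        linarith
      have hc1 := Nat.le_ceil (-Real.log d / m)
      have hc2 := Nat.ceil_lt_add_one hq
      rw [div_le_iff₀ hmpos] at hc1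
      have hc2' : (⌈-Real.log d / m⌉₊ : ℝ) * m ≤ -Real.log d + m := by
        have := mul_le_mul_of_nonneg_right hc2.le hmpos.le
        rw [add_mul, div_mul_cancel₀ _ hmpos.ne', one_mul] at this
        exact this
      set j0 := ⌈-Real.log d / m⌉₊ with hj0
      have hi' : ((i + 1 : ℕ) : ℝ) * m ≤ -Real.log d + m := by
        push_cast
        linarith
      refine ⟨min 4000 (max j0 (i + 1)), ?_, min_le_left _ _, ?_, ?_⟩
      · rw [lt_min_iff]
        exact ⟨by omega, lt_of_lt_of_le (Nat.lt_succ_self i) (le_max_right _ _)⟩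
      · have h1 : min 4000 (max j0 (i + 1)) ≤ max j0 (i + 1) := min_le_right _ _
        have h2 : ((min 4000 (max j0 (i + 1)) : ℕ) : ℝ) ≤ ((max j0 (i + 1) : ℕ) : ℝ) := by exact_mod_cast h1
        refine (mul_le_mul_of_nonneg_right h2 hmpos.le).trans ?_
        rcases max_choice j0 (i + 1) with h3 | h3
        · rw [h3]
          exact hc2'
        · rw [h3]
          exact hi'
      · rcases le_or_gt j0 (min 4000 (max j0 (i + 1))) with h3 | h3
        · left
          rw [← Real.le_log_iff_exp_le hdpos]
          have h4 : (j0 : ℝ) ≤ ((min 4000 (max j0 (i + 1)) : ℕ) : ℝ) := by exact_mod_cast h3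
          have h5 := mul_le_mul_of_nonneg_right h4 hmpos.le
          linarith
        · right
          have h4 : min 4000 (max j0 (i + 1)) = 4000 := by
            rcases min_choice 4000 (max j0 (i + 1)) with h5 | h5
            · exact h5
            · rw [h5] at h3
              exact absurd (le_max_left j0 (i + 1)) (by omega)
          rw [h4] at h3 ⊢
          constructor
          · have h5 : ¬ (j0 ≤ 4000) := by omega
            rw [hj0, Nat.ceil_le] at h5
            push Not at h5
            rw [lt_div_iff₀ hmpos] at h5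
            rw [← Real.log_le_iff_le_exp hdpos]
            push_cast at h5 ⊢
            linarith
          · have h5 : C * (1 / L) ≤ C * d := mul_le_mul_of_nonneg_left hd hC0.le
            refine le_trans ?_ h5
            rw [Real.exp_neg, mul_one_div, inv_eq_one_div, div_le_div_iff₀ (Real.exp_pos _) hL]
            push_cast
            linarith
    -- the covering number at the scale `e^(-jm)`
    set E := lc (A'.image (fun a : ℤ => (a : ℝ) / L)) x0 s with hE
    set δ := Real.exp (-(j * m)) with hδ
    have hδpos : 0 < δ := Real.exp_pos _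
    have hcδ : (cov δ E : ℝ) ≤ C * Real.exp ((1 / 2 + eta) * ((j - i) * m)) := by
      refine hCA i j hij hj4 x0 (cel δ E) ?_
      intro k hk
      unfold cel at hk
      obtain ⟨x, hx, rfl⟩ := Finset.mem_image.1 hk
      rw [hE] at hx
      unfold lc at hx
      obtain ⟨hx1, hx2⟩ := Finset.mem_filter.1 hx
      obtain ⟨a, ha, rfl⟩ := Finset.mem_image.1 hx1
      refine ⟨a, hA' ha, hx2.trans hi1', ?_⟩
      rw [hδ, div_eq_mul_inv ((a : ℝ) / L) (Real.exp (-(j * m))), ← Real.exp_neg, neg_neg]
    have hcd : (cov d E : ℝ) ≤ (C + 2) * cov δ E := by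
      have hn : (0 : ℝ) ≤ cov δ E := Nat.cast_nonneg _
      rcases hj2 with h1 | ⟨h1, h2⟩
      · have h3 := h.co δ d E hδpos h1
        have h4 : (cov d E : ℝ) ≤ 2 * cov δ E := by exact_mod_cast h3
        nlinarith
      · have h3 := h.fi d δ E hdpos h1
        refine h3.trans (mul_le_mul_of_nonneg_right ?_ hn)
        have : δ / d ≤ C := by
          rw [div_le_iff₀ hdpos]
          exact h2
        linarith
    -- exponents
    have hlsd : Real.log (s / d) = Real.log s - Real.log d := Real.log_div hspos.ne' hdpos.ne'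
    have hji : ((j : ℝ) - i) * m ≤ Real.log (s / d) + 2 * m + Real.log C := by
      rw [hlsd]
      nlinarith
    have heta : eta = 1 / 5000000 := rfl
    have hexp : (1 / 2 + eta) * (((j : ℝ) - i) * m) ≤ 1 / 2 * Real.log (s / d) + 2 * m + Real.log C := by
      have h1 : (1 / 2 + eta) * (((j : ℝ) - i) * m) ≤ (1 / 2 + eta) * (Real.log (s / d) + 2 * m + Real.log C) :=
        mul_le_mul_of_nonneg_left hji (by rw [heta]; norm_num)
      refine h1.trans ?_
      rw [heta]
      have h2 : Real.log (s / d) ≤ 4000 * m + Real.log C := by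
        rw [hlsd]
        linarith
      nlinarith
    have hsd : 0 < s / d := by positivity
    have hsqrt : Real.exp (1 / 2 * Real.log (s / d)) = Real.sqrt (s / d) := by
      rw [Real.sqrt_eq_rpow, Real.rpow_def_of_pos hsd]
      ring_nf
    have hKC : (0 : ℝ) < (C + 2) * C ^ 2 := by positivity
    have hfin : (C + 2) * (C * Real.exp (1 / 2 * Real.log (s / d) + 2 * m + Real.log C)) ≤ (L : ℝ) ^ (1 / 1000 : ℝ) * Real.sqrt (s / d) := by
      rw [Real.exp_add, Real.exp_add, hsqrt, Real.exp_log hC0]
      have h1 : (C + 2) * C ^ 2 * Real.exp (2 * m) ≤ (L : ℝ) ^ (1 / 1000 : ℝ) := by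
        rw [Real.rpow_def_of_pos hL]
        have h2 : (C + 2) * C ^ 2 * Real.exp (2 * m) = Real.exp (Real.log ((C + 2) * C ^ 2) + 2 * m) := by
          rw [Real.exp_add, Real.exp_log hKC]
        rw [h2, Real.exp_le_exp]
        linarith
      have h3 := mul_le_mul_of_nonneg_right h1 (Real.sqrt_nonneg (s / d))
      refine le_trans (le_of_eq ?_) h3
      ring
    calc (cov d E : ℝ) ≤ (C + 2) * cov δ E := hcd
      _ ≤ (C + 2) * (C * Real.exp ((1 / 2 + eta) * ((j - i) * m))) := mul_le_mul_of_nonneg_left hcδ (by linarith)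
      _ ≤ (C + 2) * (C * Real.exp (1 / 2 * Real.log (s / d) + 2 * m + Real.log C)) := by
          refine mul_le_mul_of_nonneg_left (mul_le_mul_of_nonneg_left ?_ hC0.le) (by linarith)
          rw [Real.exp_le_exp]
          exact hexp
      _ ≤ _ := hfin

end

end Pool.Agent.HH
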